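import Pool.Agent.Lib.MP_66d22e_co.Up

open Pool.Agent.Lib.MP_66d22e_co

namespace Pool.Agent.Results.MP_66d22e_co.Threshold

theorem result (V : Type) [Fintype V] (G : SimpleGraph V) (X : Finset V) (hG : IsBin G X)
    (hX : 3 ≤ X.card) (k : ℕ) :
    (∃ T : Finset (Sym2 V), Cover G X T ∧ ¬ Shellable G X T ∧ T.card ≤ k) ↔
      12 ≤ X.card ∧ 2 * X.card + 3 ≤ k := by
  classical
  exact threshold hG hX k

end Pool.Agent.Results.MP_66d22e_co.Threshold
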